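import Pool.Agent.H.MP_b05523_al.Wind

set_option autoImplicit false

namespace Pool.Agent.H.MP_b05523_al
open FreeGroup

/-- walks in a labelled graph given by an edge relation -/
inductive Wk {X β : Type} (E : X → β × Bool → X → Prop) : X → List (β × Bool) → X → Prop
  | nil (v : X) : Wk E v [] v
  | cons (v u w : X) (x : β × Bool) (l : List (β × Bool)) : E v x u → Wk E u l w →
      Wk E v (x :: l) w

structure Fold {X β : Type} (E : X → β × Bool → X → Prop) : Prop where
  sym : ∀ v a b u, E v (a, b) u → E u (a, !b) v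
  det : ∀ v x u u', E v x u → E v x u' → u = u'

def Girth {X β : Type} (E : X → β × Bool → X → Prop) (g : ℕ) : Prop :=
  ∀ v l, FreeGroup.IsReduced l → l ≠ [] → Wk E v l v → g ≤ l.length

def Piece {X β : Type} (E : X → β × Bool → X → Prop) (p : ℕ) : Prop :=
  ∀ v v' l w w', FreeGroup.IsReduced l → p < l.length → Wk E v l w → Wk E v' l w' → v = v'

section
variable {X β : Type} {E : X → β × Bool → X → Prop}

theorem Wk.append {v u w : X} {a b : List (β × Bool)} (h1 : Wk E v a u) (h2 : Wk E u b w) :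
    Wk E v (a ++ b) w := by
  induction h1 with
  | nil => exact h2
  | cons v u' _ x l e _ ih => exact Wk.cons _ _ _ _ _ e (ih h2)

theorem Wk.split {a b : List (β × Bool)} : ∀ {v w : X}, Wk E v (a ++ b) w →
    ∃ u, Wk E v a u ∧ Wk E u b w := by
  induction a with
  | nil => intro v w h; exact ⟨v, Wk.nil v, h⟩
  | cons x a ih =>
    intro v w h
    cases h with
    | cons _ u _ _ _ e h =>
      obtain ⟨t, h1, h2⟩ := ih h
      exact ⟨t, Wk.cons _ _ _ _ _ e h1, h2⟩

theorem Wk.det (F : Fold E) {v u u' : X} {a : List (β × Bool)} (h1 : Wk E v a u)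
    (h2 : Wk E v a u') : u = u' := by
  induction h1 with
  | nil => cases h2; rfl
  | cons v t _ x l e _ ih =>
    cases h2 with
    | cons _ t' _ _ _ e' h => rw [← F.det _ _ _ _ e e'] at h; exact ih h

theorem Wk.rev (F : Fold E) {v u : X} {a : List (β × Bool)} (h1 : Wk E v a u) :
    Wk E u (invRev a) v := by
  induction h1 with
  | nil => exact Wk.nil _
  | cons v t _ x l e _ ih =>
    rw [invRev_cons]
    exact ih.append (Wk.cons _ _ _ _ _ (F.sym _ _ _ _ e) (Wk.nil _))

theorem Wk.det' (F : Fold E) {v v' u : X} {a : List (β × Bool)} (h1 : Wk E v a u)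
    (h2 : Wk E v' a u) : v = v' := (h1.rev F).det F (h2.rev F)

theorem Wk.step (F : Fold E) {v u : X} {a b : List (β × Bool)} (hs : Red.Step a b)
    (h1 : Wk E v a u) : Wk E v b u := by
  cases hs with
  | @not L1 L2 x c =>
    obtain ⟨t, h2, h3⟩ := h1.split
    cases h3 with
    | cons _ s _ _ _ e h3 =>
      cases h3 with
      | cons _ s' _ _ _ e' h3 =>
        have := F.det _ _ _ _ (F.sym _ _ _ _ e) e'
        subst this
        exact h2.append h3

theorem Wk.red (F : Fold E) {v u : X} {a b : List (β × Bool)} (hs : Red a b)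
    (h1 : Wk E v a u) : Wk E v b u := by
  induction hs with
  | refl => exact h1
  | tail _ s ih => exact ih.step F s

variable [DecidableEq β]

theorem wk_mul (F : Fold E) {v u w : X} {x y : FreeGroup β} (h1 : Wk E v x.toWord u)
    (h2 : Wk E u y.toWord w) : Wk E v (x * y).toWord w := by
  rw [toWord_mul]; exact (h1.append h2).red F reduce.red

theorem wk_inv (F : Fold E) {v u : X} {x : FreeGroup β} (h1 : Wk E v x.toWord u) :
    Wk E u x⁻¹.toWord v := by
  rw [toWord_inv]; exact h1.rev F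

def HH (F : Fold E) (r : X) : Subgroup (FreeGroup β) where
  carrier := {h | Wk E r h.toWord r}
  one_mem' := Wk.nil r
  mul_mem' := fun h1 h2 => wk_mul F h1 h2
  inv_mem' := fun h => wk_inv F h

theorem sc_graph (F : Fold E) (r : X) {p g : ℕ} (hg : Girth E g) (hp : Piece E p)
    (hb : 7 * p + 5 ≤ g) : SC {x | ∃ v, Wk E r x.toWord v} (HH F r) p g where
  one := ⟨r, Wk.nil r⟩
  cvx := by
    rintro x ⟨u, hu⟩ y ⟨v, hv⟩ z hz
    have h1 := wk_mul F (wk_inv F hu) hv
    have h2 : (x⁻¹ * y).toWord = (x⁻¹ * z).toWord ++ (z⁻¹ * y).toWord := by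
      have h3 := toWord_mul_sublist (x⁻¹ * z) (z⁻¹ * y)
      have h4 : x⁻¹ * z * (z⁻¹ * y) = x⁻¹ * y := by group
      rw [h4] at h3
      refine h3.eq_of_length ?_
      rw [List.length_append]; exact Eq.symm hz
    rw [h2] at h1
    obtain ⟨t, h5, _⟩ := h1.split
    exact ⟨t, by simpa using wk_mul F hu h5⟩
  inv := by
    rintro h hh c ⟨v, hv⟩
    exact ⟨v, wk_mul F hh hv⟩
  mv := by
    rintro h hh h1 c ⟨v, hv⟩
    refine hg v _ isReduced_toWord ?_ (wk_mul F (wk_inv F hv) (wk_mul F hh hv))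
    rw [Ne, toWord_eq_nil_iff]
    intro e
    apply h1
    have : h = c * (c⁻¹ * (h * c)) * c⁻¹ := by group
    rw [this, e]; simp
  pc := by
    rintro f x y ⟨a, ha⟩ ⟨b, hb⟩ ⟨a', ha'⟩ ⟨b', hb'⟩ hd
    have h1 := wk_mul F (wk_inv F ha) hb
    have h2 := wk_mul F (wk_inv F ha') hb'
    have e : (f⁻¹ * x)⁻¹ * (f⁻¹ * y) = x⁻¹ * y := by group
    rw [e] at h2
    have := hp _ _ _ _ _ isReduced_toWord hd h1 h2
    subst this
    have h3 := wk_mul F ha (wk_inv F ha')
    have e : x * (f⁻¹ * x)⁻¹ = f := by group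
    rw [e] at h3
    exact h3
  big := hb

theorem realize (F : Fold E) (r : X) {p g : ℕ} (hg : Girth E g) (hp : Piece E p)
    (hb : 7 * p + 5 ≤ g) (hc : ∀ v, ∃ l, Wk E r l v) :
    ∃ (G : Type) (_ : Group G) (gen : β → G) (ψ : X → G), Function.Injective ψ ∧ ψ r = 1 ∧
      ∀ v a u, E v (a, true) u → ψ u = ψ v * gen a := by
  have hc' : ∀ v, ∃ x : FreeGroup β, Wk E r x.toWord v := by
    intro v
    obtain ⟨l, hl⟩ := hc v
    exact ⟨mk l, by rw [toWord_mk]; exact hl.red F reduce.red⟩
  choose w hw using hc'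
  let N := Subgroup.normalClosure (HH F r : Set (FreeGroup β))
  have key : ∀ x y v, Wk E r x.toWord v → Wk E r y.toWord v →
      (QuotientGroup.mk x : FreeGroup β ⧸ N) = QuotientGroup.mk y := by
    intro x y v hx hy
    rw [QuotientGroup.eq]
    have : y * x⁻¹ ∈ N := Subgroup.subset_normalClosure (wk_mul F hy (wk_inv F hx))
    have h2 := (Subgroup.normalClosure_normal (s := (HH F r : Set (FreeGroup β)))).conj_mem _ this x⁻¹
    simpa [mul_assoc] using h2
  refine ⟨FreeGroup β ⧸ N, inferInstance, fun a => QuotientGroup.mk (of a),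
    fun v => QuotientGroup.mk (w v), ?_, ?_, ?_⟩
  · intro u v h
    have h1 : (w u)⁻¹ * w v ∈ N := QuotientGroup.eq.1 h
    have h2 := (Subgroup.normalClosure_normal (s := (HH F r : Set (FreeGroup β)))).conj_mem _ h1 (w u)
    have h3 := windmill (sc_graph F r hg hp hb) h2 ⟨u, hw u⟩ ⟨v, by simpa [mul_assoc] using hw v⟩
    have h4 := wk_mul F h3 (hw u)
    have e : w u * ((w u)⁻¹ * w v) * (w u)⁻¹ * w u = w v := by group
    rw [e] at h4
    exact h4.det F (hw v)
  · exact key _ 1 r (hw r) (Wk.nil r)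
  · intro v a u e
    rw [← QuotientGroup.mk_mul]
    refine key _ _ u (hw u) (wk_mul F (hw v) ?_)
    rw [toWord_of]; exact Wk.cons _ _ _ _ _ e (Wk.nil _)

end

end Pool.Agent.H.MP_b05523_al
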