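import Pool.Agent.H.MP_b05523_al.Graph

set_option autoImplicit false

namespace Pool.Agent.H.MP_b05523_al
open FreeGroup

theorem sel {ι X : Type} [DecidableEq ι] (a b : ι → X) (n : ℕ) : ∀ A : Finset ι, 3 * n ≤ A.card →
    Set.InjOn a A → Set.InjOn b A → (∀ i ∈ A, a i ≠ b i) →
    ∃ J ⊆ A, J.card = n ∧ ∀ i ∈ J, ∀ j ∈ J, a i ≠ b j := by
  classical
  induction n with
  | zero => intro A _ _ _ _; exact ⟨∅, by simp, rfl, by simp⟩
  | succ n ih =>
    intro A hA ha hb hab
    obtain ⟨i0, hi0⟩ : A.Nonempty := Finset.card_pos.1 (by omega)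
    let A1 := A.filter (fun i => a i = b i0)
    let A2 := A.filter (fun i => b i = a i0)
    have h1 : A1.card ≤ 1 := Finset.card_le_one.2 fun i hi j hj => by
      simp only [A1, Finset.mem_filter] at hi hj
      exact ha hi.1 hj.1 (hi.2.trans hj.2.symm)
    have h2 : A2.card ≤ 1 := Finset.card_le_one.2 fun i hi j hj => by
      simp only [A2, Finset.mem_filter] at hi hj
      exact hb hi.1 hj.1 (hi.2.trans hj.2.symm)
    let A' := A \ (insert i0 (A1 ∪ A2))
    have h3 : 3 * n ≤ A'.card := by
      have e1 := Finset.le_card_sdiff (insert i0 (A1 ∪ A2)) A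
      have e2 := Finset.card_insert_le i0 (A1 ∪ A2)
      have e3 := Finset.card_union_le A1 A2
      simp only [A']; omega
    have hs : A' ⊆ A := Finset.sdiff_subset
    obtain ⟨J, hJ, hc, hd⟩ := ih A' h3 (ha.mono hs) (hb.mono hs) (fun i hi => hab i (hs hi))
    have hm : ∀ i ∈ J, i ≠ i0 ∧ a i ≠ b i0 ∧ b i ≠ a i0 := by
      intro i hi
      have := hJ hi
      simp only [A', A1, A2, Finset.mem_sdiff, Finset.mem_insert, Finset.mem_union,
        Finset.mem_filter] at this
      tauto
    refine ⟨insert i0 J, Finset.insert_subset hi0 (hJ.trans hs), ?_, ?_⟩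
    · rw [Finset.card_insert_of_notMem (fun h => (hm _ h).1 rfl), hc]
    · intro i hi j hj
      rcases Finset.mem_insert.1 hi with e1 | hi' <;> rcases Finset.mem_insert.1 hj with e2 | hj'
      · rw [e1, e2]; exact hab _ hi0
      · rw [e1]; exact fun e => (hm _ hj').2.2 e.symm
      · rw [e2]; exact (hm _ hi').2.1
      · exact hd _ hi' _ hj'

theorem cnt {X Q : Type} [Fintype X] [Fintype Q] [DecidableEq X] (T : Finset X)
    (Ev : Finset (X → Q)) (h : ∀ t ∈ T, ∃ y ∉ T, ∀ r ∈ Ev, r t = r y) :
    Ev.card * Fintype.card Q ^ T.card ≤ Fintype.card Q ^ Fintype.card X := by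
  classical
  have h1 : Ev.card ≤ (Finset.univ : Finset ({x // x ∉ T} → Q)).card := by
    refine Finset.card_le_card_of_injOn (fun r x => r x.1) (by simp) ?_
    intro r hr s hs e
    funext x
    by_cases hx : x ∈ T
    · obtain ⟨y, hy, h2⟩ := h x hx
      rw [h2 r hr, h2 s hs]; exact congrFun e ⟨y, hy⟩
    · exact congrFun e ⟨x, hx⟩
  have h2 : Fintype.card {x // x ∉ T} + T.card = Fintype.card X := by
    have := Fintype.card_subtype_compl (fun x => x ∈ T)
    have h3 := Finset.card_le_univ T
    simp only [Fintype.card_coe] at this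
    omega
  rw [Finset.card_univ, Fintype.card_fun] at h1
  rw [← h2, pow_add]
  exact Nat.mul_le_mul_right _ h1

section
variable {X Q : Type} {E : X → Bool × Bool → X → Prop}

def Lb (E : X → Bool × Bool → X → Prop) (r : X → Q) (v : X) (x : (Bool × Q × Q) × Bool) (u : X) :
    Prop :=
  E v (x.1.1, x.2) u ∧ (if x.2 then r v = x.1.2.1 ∧ r u = x.1.2.2 else r u = x.1.2.1 ∧ r v = x.1.2.2)

def pj (x : (Bool × Q × Q) × Bool) : Bool × Bool := (x.1.1, x.2)

theorem lb_fold (F : Fold E) (r : X → Q) : Fold (Lb E r) where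
  sym := by
    rintro v a b u ⟨h1, h2⟩
    refine ⟨F.sym _ _ _ _ h1, ?_⟩
    cases b <;> simpa using h2
  det := fun v x u u' h h' => F.det _ _ _ _ h.1 h'.1

theorem lb_pj {r : X → Q} {v w : X} {l : List ((Bool × Q × Q) × Bool)} (h : Wk (Lb E r) v l w) :
    Wk E v (l.map pj) w := by
  induction h with
  | nil => exact Wk.nil _
  | cons v u w x l e _ ih => exact Wk.cons _ _ _ _ _ e.1 ih

theorem lb_red (F : Fold E) {r : X → Q} {v w : X} {l : List ((Bool × Q × Q) × Bool)}
    (h : Wk (Lb E r) v l w) (hr : FreeGroup.IsReduced l) : FreeGroup.IsReduced (l.map pj) := by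
  induction h with
  | nil => exact IsReduced.nil
  | cons v u w x l e h ih =>
    cases h with
    | nil => exact IsReduced.singleton
    | cons _ t _ y l e' h =>
      rw [isReduced_cons_cons] at hr
      simp only [List.map_cons] at ih ⊢
      rw [isReduced_cons_cons]
      refine ⟨fun h1 => ?_, ih hr.2⟩
      by_contra h2
      obtain ⟨⟨k, a, b⟩, c⟩ := x
      obtain ⟨⟨k', a', b'⟩, c'⟩ := y
      simp only [pj] at h1 h2
      subst h1
      have h3 : c' = !c := by cases c <;> cases c' <;> simp_all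
      subst h3
      have h4 := F.det _ _ _ _ (F.sym _ _ _ _ e.1) e'.1
      subst h4
      have e1 := e.2
      have e2 := e'.2
      apply h2
      apply hr.1
      cases c <;> simp at e1 e2 ⊢ <;> simp [← e1.1, ← e1.2, ← e2.1, ← e2.2]

theorem lb_girth (F : Fold E) (r : X → Q) {g : ℕ} (hg : Girth E g) : Girth (Lb E r) g := by
  intro v l h1 h2 h3
  simpa using hg v _ (lb_red F h3 h1) (by simpa using h2) (lb_pj h3)

theorem lb_lift (r : X → Q) {v w : X} {l : List (Bool × Bool)} (h : Wk E v l w) :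
    ∃ l', Wk (Lb E r) v l' w := by
  induction h with
  | nil => exact ⟨[], Wk.nil _⟩
  | cons v u w x l e _ ih =>
    obtain ⟨l', h⟩ := ih
    obtain ⟨k, c⟩ := x
    cases c
    · exact ⟨_, Wk.cons _ _ _ ((k, r u, r v), false) _ ⟨e, by simp⟩ h⟩
    · exact ⟨_, Wk.cons _ _ _ ((k, r v, r u), true) _ ⟨e, by simp⟩ h⟩

theorem lb_col {r : X → Q} {v v' w w' : X} {l : List ((Bool × Q × Q) × Bool)}
    (h : Wk (Lb E r) v l w) (h' : Wk (Lb E r) v' l w') (hl : l ≠ []) : r v = r v' := by
  cases h with
  | nil => exact (hl rfl).elim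
  | cons _ u _ x l e _ =>
    cases h' with
    | cons _ u' _ _ _ e' _ =>
      have e1 := e.2
      have e2 := e'.2
      obtain ⟨a, c⟩ := x
      cases c <;> simp at e1 e2
      · rw [e1.2, e2.2]
      · rw [e1.1, e2.1]

open Classical in
noncomputable def pos (E : X → Bool × Bool → X → Prop) (v : X) (l : List (Bool × Bool)) (j : ℕ) : X :=
  if h : ∃ u, Wk E v (l.take j) u then h.choose else v

theorem pos_eq (F : Fold E) {v u : X} {l : List (Bool × Bool)} {j : ℕ} (h : Wk E v (l.take j) u) :
    pos E v l j = u := by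
  have h' : ∃ u, Wk E v (l.take j) u := ⟨u, h⟩
  rw [pos, dif_pos h']
  exact h'.choose_spec.det F h

theorem pos_wk (F : Fold E) {v w : X} {l : List (Bool × Bool)} (h : Wk E v l w) (j : ℕ) :
    Wk E v (l.take j) (pos E v l j) := by
  rw [← List.take_append_drop j l] at h
  obtain ⟨u, h1, _⟩ := h.split
  rw [pos_eq F h1]; exact h1

theorem pos_inj (F : Fold E) {g : ℕ} (hg : Girth E g) {v w : X} {l : List (Bool × Bool)}
    (h : Wk E v l w) (hr : FreeGroup.IsReduced l) (hl : l.length < g) :
    Set.InjOn (pos E v l) (Finset.range l.length) := by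
  have key : ∀ i j, i < j → j < l.length → pos E v l i ≠ pos E v l j := by
    intro i j hij hj e
    have h1 := pos_wk F h j
    have h2 := pos_wk F h i
    have e1 : l.take j = l.take i ++ (l.take j).drop i := by
      conv_lhs => rw [← List.take_append_drop i (l.take j)]
      rw [List.take_take, min_eq_left hij.le]
    rw [e1] at h1
    obtain ⟨u, h3, h4⟩ := h1.split
    rw [h3.det F h2, ← e] at h4
    have r1 : FreeGroup.IsReduced (l.take j) :=
      red_left (b := l.drop j) (by rwa [List.take_append_drop])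
    have r2 : FreeGroup.IsReduced ((l.take j).drop i) := red_right (a := l.take i) (e1 ▸ r1)
    have hlen : ((l.take j).drop i).length = j - i := by simp; omega
    have := hg _ _ r2 (by intro t; rw [t] at hlen; simp at hlen; omega) h4
    omega
  intro i hi j hj e
  simp only [Finset.coe_range, Set.mem_Iio] at hi hj
  rcases lt_trichotomy i j with t | t | t
  · exact (key i j t hj e).elim
  · exact t
  · exact (key j i t hi e.symm).elim

theorem exists_lab [Fintype X] [Fintype Q] [Nonempty Q] (F : Fold E) {g n : ℕ} (hg : Girth E g)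
    (hn : 3 * n < g)
    (hq : Fintype.card X * Fintype.card X * 4 ^ (3 * n) < Fintype.card Q ^ n) :
    ∃ r : X → Q, Piece (Lb E r) (3 * n) := by
  classical
  let Bad : X × X × (Fin (3 * n) → Bool × Bool) → Finset (X → Q) := fun t =>
    Finset.univ.filter fun r => t.1 ≠ t.2.1 ∧ FreeGroup.IsReduced (List.ofFn t.2.2) ∧
      (∃ w, Wk E t.1 (List.ofFn t.2.2) w) ∧ (∃ w, Wk E t.2.1 (List.ofFn t.2.2) w) ∧
      ∀ j < 3 * n, r (pos E t.1 (List.ofFn t.2.2) j) = r (pos E t.2.1 (List.ofFn t.2.2) j)
  have hB : ∀ t, (Bad t).card * Fintype.card Q ^ n ≤ Fintype.card Q ^ Fintype.card X := by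
    rintro ⟨v, v', f⟩
    rcases (Bad (v, v', f)).eq_empty_or_nonempty with e | ⟨r0, hr0⟩
    · rw [e]; simp
    simp only [Bad, Finset.mem_filter] at hr0
    obtain ⟨-, h1, h2, ⟨w, h3⟩, ⟨w', h4⟩, -⟩ := hr0
    have hl : (List.ofFn f).length = 3 * n := by simp
    have i1 := pos_inj F hg h3 h2 (by omega)
    have i2 := pos_inj F hg h4 h2 (by omega)
    rw [hl] at i1 i2
    obtain ⟨J, hJ, hc, hd⟩ := sel (pos E v (List.ofFn f)) (pos E v' (List.ofFn f)) n
      (Finset.range (3 * n)) (by simp) i1 i2 (by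
        intro i _ e
        have a1 := pos_wk F h3 i
        have a2 := pos_wk F h4 i
        rw [← e] at a2
        exact h1 (a1.det' F a2))
    have := cnt (J.image (pos E v (List.ofFn f))) (Bad (v, v', f)) (by
      intro t ht
      obtain ⟨i, hi, rfl⟩ := Finset.mem_image.1 ht
      refine ⟨pos E v' (List.ofFn f) i, ?_, ?_⟩
      · intro hh
        obtain ⟨j, hj, e⟩ := Finset.mem_image.1 hh
        exact hd j hj i hi e
      · intro r hr
        simp only [Bad, Finset.mem_filter] at hr
        exact hr.2.2.2.2.2 i (Finset.mem_range.1 (hJ hi)))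
    rwa [Finset.card_image_of_injOn (i1.mono hJ), hc] at this
  by_contra hc
  push Not at hc
  have hall : ∀ r : X → Q, ∃ t, r ∈ Bad t := by
    intro r
    have := hc r
    unfold Piece at this
    push Not at this
    obtain ⟨v, v', l, w, w', h1, h2, h3, h4, h5⟩ := this
    let l0 := (l.take (3 * n)).map pj
    have hl0 : l0.length = 3 * n := by simp [l0]; omega
    let f : Fin (3 * n) → Bool × Bool := fun i => l0[i.1]'(by omega)
    have hf : List.ofFn f = l0 := by
      apply List.ext_getElem (by simp [hl0])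
      intro i _ _; simp [f]
    have sp : ∀ j, ∀ {v w : X}, Wk (Lb E r) v l w →
        ∃ u, Wk (Lb E r) v (l.take j) u ∧ Wk (Lb E r) u (l.drop j) w := by
      intro j v w h
      rw [← List.take_append_drop j l] at h
      exact h.split
    refine ⟨(v, v', f), ?_⟩
    simp only [Bad, Finset.mem_filter, hf]
    obtain ⟨u, a1, -⟩ := sp (3 * n) h3
    obtain ⟨u', a2, -⟩ := sp (3 * n) h4
    refine ⟨Finset.mem_univ _, h5,
      lb_red F a1 (red_left (b := l.drop (3 * n)) (by rwa [List.take_append_drop])),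
      ⟨u, lb_pj a1⟩, ⟨u', lb_pj a2⟩, fun j hj => ?_⟩
    obtain ⟨s, b1, b2⟩ := sp j h3
    obtain ⟨s', c1, c2⟩ := sp j h4
    have e : l0.take j = (l.take j).map pj := by
      simp only [l0, ← List.map_take, List.take_take, min_eq_left hj.le]
    rw [pos_eq F (e ▸ lb_pj b1), pos_eq F (e ▸ lb_pj c1)]
    exact lb_col b2 c2 (by simp; omega)
  have h1 : (Finset.univ : Finset (X → Q)) ⊆ Finset.univ.biUnion Bad := by
    intro r _
    obtain ⟨t, ht⟩ := hall r
    exact Finset.mem_biUnion.2 ⟨t, Finset.mem_univ _, ht⟩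
  have h2 := (Finset.card_le_card h1).trans Finset.card_biUnion_le
  have h3 := Nat.mul_le_mul_right (Fintype.card Q ^ n) h2
  rw [Finset.sum_mul] at h3
  have h4 := h3.trans (Finset.sum_le_card_nsmul _ _ _ fun t _ => hB t)
  simp only [Finset.card_univ, Fintype.card_fun, Fintype.card_prod, Fintype.card_bool,
    Fintype.card_fin, smul_eq_mul] at h4
  have h5 : 0 < Fintype.card Q ^ Fintype.card X := pow_pos Fintype.card_pos _
  rw [mul_comm] at h4
  have h6 := Nat.le_of_mul_le_mul_right h4 h5
  rw [← mul_assoc] at h6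
  norm_num at h6
  omega

end

end Pool.Agent.H.MP_b05523_al
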