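import Pool.Agent.H.MP_b05523_al.Label

set_option autoImplicit false

namespace Pool.Agent.H.MP_b05523_al
open FreeGroup

theorem add_edge {X : Type} {E E' : X → Bool × Bool → X → Prop} {g : ℕ} {a b : X} (F : Fold E)
    (hg : Girth E g) (far : ∀ l, Wk E a l b → g ≤ l.length)
    (hE : ∀ v x u, E' v x u → E v x u ∨ (x = (true, true) ∧ v = a ∧ u = b) ∨
      (x = (true, false) ∧ v = b ∧ u = a)) : Girth E' g := by
  have far' : ∀ l, Wk E b l a → g ≤ l.length := fun l h => by simpa using far _ (h.rev F)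
  have claim : ∀ l v w, Wk E' v l w → FreeGroup.IsReduced l → l.length < g → Wk E v l w ∨
      (∃ l1 l2, l = l1 ++ (true, true) :: l2 ∧ Wk E v l1 a ∧ Wk E b l2 w) ∨
      (∃ l1 l2, l = l1 ++ (true, false) :: l2 ∧ Wk E v l1 b ∧ Wk E a l2 w) := by
    intro l v w h
    induction h with
    | nil => intro _ _; exact Or.inl (Wk.nil _)
    | cons v u w x l e _ ih =>
      intro hr hl
      simp only [List.length_cons] at hl
      have hr' : FreeGroup.IsReduced l := red_right (a := [x]) hr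
      have ih' := ih hr' (by omega)
      rcases hE _ _ _ e with e | ⟨rfl, rfl, rfl⟩ | ⟨rfl, rfl, rfl⟩
      · rcases ih' with h | ⟨l1, l2, rfl, h1, h2⟩ | ⟨l1, l2, rfl, h1, h2⟩
        · exact Or.inl (Wk.cons _ _ _ _ _ e h)
        · exact Or.inr (Or.inl ⟨x :: l1, l2, rfl, Wk.cons _ _ _ _ _ e h1, h2⟩)
        · exact Or.inr (Or.inr ⟨x :: l1, l2, rfl, Wk.cons _ _ _ _ _ e h1, h2⟩)
      · rcases ih' with h | ⟨l1, l2, rfl, h1, h2⟩ | ⟨l1, l2, rfl, h1, h2⟩
        · exact Or.inr (Or.inl ⟨[], l, rfl, Wk.nil _, h⟩)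
        · have := far' _ h1
          simp at hl; omega
        · exfalso
          by_cases e1 : l1 = []
          · subst e1; simp at hr
          · have := hg _ _ (red_left hr') e1 h1
            simp at hl; omega
      · rcases ih' with h | ⟨l1, l2, rfl, h1, h2⟩ | ⟨l1, l2, rfl, h1, h2⟩
        · exact Or.inr (Or.inr ⟨[], l, rfl, Wk.nil _, h⟩)
        · exfalso
          by_cases e1 : l1 = []
          · subst e1; simp at hr
          · have := hg _ _ (red_left hr') e1 h1
            simp at hl; omega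
        · have := far _ h1
          simp at hl; omega
  intro v l h1 h2 h3
  by_contra hc
  rcases claim l v v h3 h1 (by omega) with h | ⟨l1, l2, rfl, a1, a2⟩ | ⟨l1, l2, rfl, a1, a2⟩
  · exact hc (hg _ _ h1 h2 h)
  · have := far' _ (a2.append a1)
    simp at hc this; omega
  · have := far _ (a2.append a1)
    simp at hc this; omega

variable {m : ℕ}

def Rl (μ : List (Fin m)) (k : Bool) (u w : Fin m) : Prop :=
  if k then μ[u.1]? = some w else w.1 = u.1 + 1

def Ed (μ : List (Fin m)) (v : Fin m) (x : Bool × Bool) (u : Fin m) : Prop :=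
  if x.2 then Rl μ x.1 v u else Rl μ x.1 u v

theorem ed_fold {μ : List (Fin m)} (h : μ.Nodup) : Fold (Ed μ) where
  sym := by
    intro v a b u e
    cases b <;> simpa [Ed] using e
  det := by
    rintro v ⟨k, c⟩ u u' e e'
    cases k <;> cases c <;> simp [Ed, Rl] at e e'
    · exact Fin.ext (by omega)
    · exact Fin.ext (by omega)
    · obtain ⟨h1, h2⟩ := List.getElem?_eq_some_iff.1 e
      obtain ⟨h3, h4⟩ := List.getElem?_eq_some_iff.1 e'
      exact Fin.ext ((h.getElem_inj_iff).1 (h2.trans h4.symm))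
    · rw [e] at e'; exact Option.some.inj e'

theorem girth_nil (g : ℕ) : Girth (Ed ([] : List (Fin m))) g := by
  have claim : ∀ l x (v w : Fin m), FreeGroup.IsReduced (x :: l) → Wk (Ed []) v (x :: l) w →
      x.1 = false ∧ (x.2 = true → v < w) ∧ (x.2 = false → w < v) := by
    intro l
    induction l with
    | nil =>
      rintro ⟨k, c⟩ v w _ h
      cases h with
      | cons _ u _ _ _ e h =>
        cases h
        cases k <;> cases c <;> simp [Ed, Rl] at e ⊢ <;> (rw [Fin.lt_def]; omega)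
    | cons y l ih =>
      rintro ⟨k, c⟩ v w hr h
      rw [isReduced_cons_cons] at hr
      cases h with
      | cons _ u _ _ _ e h =>
        have := ih y u w hr.2 h
        have h1 := hr.1
        obtain ⟨k', c'⟩ := y
        cases k <;> cases c <;> cases k' <;> cases c' <;> simp [Ed, Rl] at e this h1 ⊢ <;>
          (rw [Fin.lt_def] at *; omega)
  intro v l h1 h2 h3
  exfalso
  cases l with
  | nil => exact h2 rfl
  | cons x l =>
    have := claim l x v v h1 h3
    cases hx : x.2 <;> simp [hx] at this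

theorem ed_conn (μ : List (Fin m)) (r : Fin m) (hr : r.1 = 0) (v : Fin m) :
    ∃ l, Wk (Ed μ) r l v := by
  obtain ⟨v, hv⟩ := v
  induction v with
  | zero => exact ⟨[], by rw [show (⟨0, hv⟩ : Fin m) = r from Fin.ext hr.symm]; exact Wk.nil _⟩
  | succ v ih =>
    obtain ⟨l, hl⟩ := ih (by omega)
    exact ⟨_, hl.append (Wk.cons _ _ _ (false, true) _ (by simp [Ed, Rl]) (Wk.nil _))⟩

theorem ball_card {X : Type} {E : X → Bool × Bool → X → Prop} (F : Fold E) (a : X) (g : ℕ) :
    ∃ T : Finset X, T.card ≤ 8 ^ g ∧ ∀ b ∉ T, ∀ l, Wk E a l b → g ≤ l.length := by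
  classical
  refine ⟨(Finset.univ : Finset ((Fin g → Bool × Bool) × Fin g)).image
    (fun t => pos E a (List.ofFn t.1) t.2), ?_, ?_⟩
  · refine Finset.card_image_le.trans ?_
    simp only [Finset.card_univ, Fintype.card_prod, Fintype.card_fun, Fintype.card_bool,
      Fintype.card_fin]
    rw [show (8 : ℕ) = (2 * 2) * 2 by norm_num, mul_pow (2 * 2) 2]
    exact Nat.mul_le_mul_left _ Nat.lt_two_pow_self.le
  · intro b hb l hl
    by_contra hc
    apply hb
    refine Finset.mem_image.2 ⟨(fun i => l.getD i (true, true), ⟨l.length, by omega⟩),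
      Finset.mem_univ _, pos_eq F ?_⟩
    convert hl
    apply List.ext_getElem
    · simp; omega
    · intro i h1 h2; simp [h2]

theorem many (g B : ℕ) (hB : 8 ^ g ≤ B) (j : ℕ) (hj : j ≤ B) :
    ∃ S : Finset (List (Fin (3 * B))), B ^ j ≤ S.card ∧
      ∀ μ ∈ S, μ.length = j ∧ μ.Nodup ∧ Girth (Ed μ) g := by
  classical
  induction j with
  | zero => exact ⟨{[]}, by simp, by simp [girth_nil]⟩
  | succ j ih =>
    obtain ⟨S, h1, h2⟩ := ih (by omega)
    let a : Fin (3 * B) := ⟨j, by omega⟩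
    have ch : ∀ μ ∈ S, ∃ T : Finset (Fin (3 * B)), B ≤ T.card ∧
        ∀ b ∈ T, b ∉ μ ∧ ∀ l, Wk (Ed μ) a l b → g ≤ l.length := by
      intro μ hμ
      obtain ⟨T, t1, t2⟩ := ball_card (ed_fold (h2 μ hμ).2.1) a g
      refine ⟨Finset.univ \ (T ∪ μ.toFinset), ?_, ?_⟩
      · have e1 := Finset.le_card_sdiff (T ∪ μ.toFinset) Finset.univ
        have e2 := Finset.card_union_le T μ.toFinset
        have e3 := List.toFinset_card_le μ
        have e4 := (h2 μ hμ).1
        simp only [Finset.card_univ, Fintype.card_fin] at e1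
        omega
      · intro b hb
        simp only [Finset.mem_sdiff, Finset.mem_union, List.mem_toFinset, not_or] at hb
        exact ⟨hb.2.2, t2 b hb.2.1⟩
    choose! T t1 t2 using ch
    refine ⟨(S.sigma T).image (fun t => t.1 ++ [t.2]), ?_, ?_⟩
    · rw [Finset.card_image_of_injOn, Finset.card_sigma]
      · calc B ^ (j + 1) = B ^ j * B := pow_succ _ _
          _ ≤ S.card * B := Nat.mul_le_mul_right _ h1
          _ ≤ _ := by simpa using Finset.card_nsmul_le_sum S _ B t1
      · rintro ⟨μ, b⟩ _ ⟨μ', b'⟩ _ e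
        have := List.append_inj' e rfl
        simp at this
        obtain ⟨rfl, rfl⟩ := this
        rfl
    · intro ν hν
      obtain ⟨⟨μ, b⟩, ht, rfl⟩ := Finset.mem_image.1 hν
      obtain ⟨hμ, hb⟩ := Finset.mem_sigma.1 ht
      obtain ⟨e1, e2, e3⟩ := h2 μ hμ
      obtain ⟨f1, f2⟩ := t2 μ hμ b hb
      refine ⟨by simp [e1], ?_, add_edge (ed_fold e2) e3 f2 ?_⟩
      · rw [List.nodup_append]
        refine ⟨e2, by simp, ?_⟩
        intro x hx y hy e
        simp at hy
        exact f1 (hy ▸ e ▸ hx)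
      · have key : ∀ v u : Fin (3 * B), (μ ++ [b])[v.1]? = some u →
            μ[v.1]? = some u ∨ (v = a ∧ u = b) := by
          intro v u e
          rw [List.getElem?_append] at e
          split_ifs at e with h
          · exact Or.inl e
          · right
            obtain ⟨h1, h2⟩ := List.getElem?_eq_some_iff.1 e
            simp at h1 h2
            exact ⟨Fin.ext (by simp [a]; omega), h2.symm⟩
        rintro v ⟨k, c⟩ u e
        cases k <;> cases c <;> simp [Ed, Rl] at e ⊢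
        · exact e
        · exact e
        · have := key _ _ e; tauto
        · exact key _ _ e

/-- many patterns, each realised in a group with a fixed generating alphabet -/
theorem patterns : ∃ (β : Type) (_ : Fintype β), ∀ D : ℕ, ∃ (m : ℕ) (r : Fin m) (j : ℕ)
    (S : Finset (List (Fin m))), r.1 = 0 ∧ j ≤ m ∧ D ^ m * D ^ m < S.card ∧ ∀ μ ∈ S, μ.length = j ∧
      ∃ (G : Type) (_ : Group G) (gen : β → G) (ψ : Fin m → G), Function.Injective ψ ∧ ψ r = 1 ∧
        ∀ k v u, Rl μ k v u → ∃ a, ψ u = ψ v * gen a := by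
  classical
  obtain ⟨q, hq0, hq⟩ : ∃ q : ℕ, 0 < q ∧ ∀ n, 1 ≤ n →
      (3 * 8 ^ (21 * n + 5)) * (3 * 8 ^ (21 * n + 5)) * 4 ^ (3 * n) < q ^ n := by
    refine ⟨8 ^ 60, by positivity, fun n hn => ?_⟩
    have h1 : (4 : ℕ) ^ (3 * n) ≤ 8 ^ (3 * n) := Nat.pow_le_pow_left (by norm_num) _
    calc _ ≤ (8 ^ 1 * 8 ^ (21 * n + 5)) * (8 ^ 1 * 8 ^ (21 * n + 5)) * 8 ^ (3 * n) := by
          gcongr <;> norm_num
      _ = 8 ^ (45 * n + 12) := by simp only [← pow_add]; congr 1; omega
      _ < 8 ^ (60 * n) := Nat.pow_lt_pow_right (by norm_num) (by omega)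
      _ = _ := by rw [pow_mul]
  have : Nonempty (Fin q) := ⟨⟨0, hq0⟩⟩
  refine ⟨Bool × Fin q × Fin q, inferInstance, fun D => ?_⟩
  obtain ⟨n, hn⟩ : ∃ n, n = D + 1 := ⟨_, rfl⟩
  obtain ⟨B, hB⟩ : ∃ B, B = 8 ^ (21 * n + 5) := ⟨_, rfl⟩
  have hB0 : 0 < B := by rw [hB]; positivity
  obtain ⟨S, h1, h2⟩ := many (21 * n + 5) B hB.ge B le_rfl
  refine ⟨3 * B, ⟨0, by omega⟩, B, S, rfl, by omega, lt_of_lt_of_le ?_ h1, fun μ hμ => ?_⟩
  · have h3 : D ^ 6 < B := by
      calc D ^ 6 < (2 ^ D) ^ 6 := Nat.pow_lt_pow_left Nat.lt_two_pow_self (by norm_num)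
        _ ≤ (8 ^ D) ^ 6 := by gcongr; norm_num
        _ = 8 ^ (D * 6) := by rw [pow_mul]
        _ ≤ _ := by rw [hB]; exact Nat.pow_le_pow_right (by norm_num) (by omega)
    calc D ^ (3 * B) * D ^ (3 * B) = (D ^ 6) ^ B := by rw [← pow_add, ← pow_mul]; congr 1; omega
      _ < _ := Nat.pow_lt_pow_left h3 (by omega)
  · obtain ⟨e1, e2, e3⟩ := h2 μ hμ
    refine ⟨e1, ?_⟩
    have F := ed_fold e2
    obtain ⟨c, hc⟩ := exists_lab (Q := Fin q) (n := n) F e3 (by omega) (by
      simp only [Fintype.card_fin]; rw [hB]; exact hq n (by omega))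
    obtain ⟨G, iG, gen, ψ, a1, a2, a3⟩ := realize (lb_fold F c) ⟨0, by omega⟩ (lb_girth F c e3) hc
      (by omega) (fun v => by
        obtain ⟨l, hl⟩ := ed_conn μ ⟨0, by omega⟩ rfl v
        exact lb_lift c hl)
    exact ⟨G, iG, gen, ψ, a1, a2, fun k v u e =>
      ⟨(k, c v, c u), a3 _ _ _ ⟨by simpa [Ed] using e, by simp⟩⟩⟩

end Pool.Agent.H.MP_b05523_al
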