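import Pool.Agent.H.MP_b05523_al.Match

set_option autoImplicit false

namespace Pool.Agent.H.MP_b05523_al
open Topology Filter Pointwise

section
variable {S : Type} [Group S] [TopologicalSpace S] [IsTopologicalGroup S]

theorem split_nhds {U : Set S} (hU : U ∈ 𝓝 (1 : S)) :
    ∃ V ∈ 𝓝 (1 : S), ∀ v ∈ V, ∀ w ∈ V, v⁻¹ * w ∈ U := by
  have h : Continuous fun p : S × S => p.1⁻¹ * p.2 := by fun_prop
  have h2 : (fun p : S × S => p.1⁻¹ * p.2) ⁻¹' U ∈ 𝓝 ((1 : S), (1 : S)) :=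
    h.continuousAt.preimage_mem_nhds (by simpa using hU)
  obtain ⟨A, hA, B, hB, h3⟩ := mem_nhds_prod_iff.1 h2
  exact ⟨A ∩ B, inter_mem hA hB, fun v hv w hw => h3 (Set.mk_mem_prod hv.1 hw.2)⟩

theorem net [LocallyCompactSpace S] {U K : Set S} (hU : U ∈ 𝓝 (1 : S)) (hK : IsCompact K) :
    ∃ (D : ℕ) (ν : S → S) (nx : S → Fin D → S), (∀ x y, ν x = ν y → x⁻¹ * y ∈ U) ∧
      ∀ x, ∀ s ∈ K, ∃ j, ν (x * s) = nx (ν x) j := by
  classical
  obtain ⟨V, hV, hV'⟩ := split_nhds hU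
  obtain ⟨W, hW, hWV, hWc⟩ := local_compact_nhds (inter_mem hV (inv_mem_nhds_one S hV))
  let Z := W ∪ W⁻¹
  have Zc : IsCompact Z := hWc.union hWc.inv
  have Zs : ∀ x ∈ Z, x⁻¹ ∈ Z := by
    rintro x (h | h)
    · exact Or.inr (by simpa using h)
    · exact Or.inl h
  have ZV : ∀ x ∈ Z, x ∈ V := by
    rintro x (h | h)
    · exact (hWV h).1
    · simpa using (hWV h).2
  have Zn : Z ∈ 𝓝 (1 : S) := mem_of_superset hW Set.subset_union_left
  obtain ⟨A, hA⟩ := zorn_subset {A : Set S | A.Pairwise fun a a' => a⁻¹ * a' ∉ Z} (by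
    intro c hc hch
    refine ⟨⋃₀ c, ?_, fun s hs => Set.subset_sUnion_of_mem hs⟩
    rintro x ⟨s, hs, hx⟩ y ⟨t, ht, hy⟩ hxy
    rcases hch.total hs ht with h | h
    · exact hc ht (h hx) hy hxy
    · exact hc hs hx (h hy) hxy)
  have cov : ∀ x, ∃ a ∈ A, a⁻¹ * x ∈ Z := by
    intro x
    by_contra hc
    push Not at hc
    have h1 : insert x A ∈ {A : Set S | A.Pairwise fun a a' => a⁻¹ * a' ∉ Z} := by
      refine hA.prop.insert fun b hb _ => ⟨fun h => hc b hb ?_, hc b hb⟩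
      simpa using Zs _ h
    have h2 := hA.eq_of_subset h1 (Set.subset_insert _ _)
    exact hc x (h2 ▸ Set.mem_insert _ _) (by simpa using mem_of_mem_nhds Zn)
  choose ν hν hν' using cov
  obtain ⟨Y, hY, hY'⟩ := split_nhds Zn
  obtain ⟨t, -, ht⟩ := ((Zc.mul hK).mul Zc).elim_nhds_subcover (fun h => {y | h⁻¹ * y ∈ Y}) (by
    intro x _
    have h : Continuous fun y : S => x⁻¹ * y := by fun_prop
    exact h.continuousAt.preimage_mem_nhds (by simpa using hY))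
  refine ⟨t.card, ν, fun a j =>
    if h : ∃ a' ∈ A, (t.equivFin.symm j).1⁻¹ * (a⁻¹ * a') ∈ Y then h.choose else 1, ?_, ?_⟩
  · intro x y e
    have := hV' _ (ZV _ (hν' x)) _ (ZV _ (hν' y))
    rw [e] at this
    simpa [mul_assoc] using this
  · intro x s hs
    have h1 : (ν x)⁻¹ * ν (x * s) ∈ Z * K * Z :=
      ⟨_, ⟨_, hν' x, s, hs, rfl⟩, _, Zs _ (hν' (x * s)), by simp [mul_assoc]⟩
    obtain ⟨h, hh, h2⟩ := Set.mem_iUnion₂.1 (ht h1)
    refine ⟨t.equivFin ⟨h, hh⟩, ?_⟩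
    have h3 : ∃ a' ∈ A, (t.equivFin.symm (t.equivFin ⟨h, hh⟩)).1⁻¹ * ((ν x)⁻¹ * a') ∈ Y :=
      ⟨ν (x * s), hν _, by simpa using h2⟩
    simp only [dif_pos h3]
    by_contra hne
    have h4 := h3.choose_spec
    apply hA.prop (hν _) h4.1 hne
    have h5 := hY' _ h2 _ (by simpa using h4.2)
    simpa [mul_assoc] using h5

theorem count [LocallyCompactSpace S] {U K : Set S} (hU : U ∈ 𝓝 (1 : S)) (hK : IsCompact K)
    (h1 : (1 : S) ∈ K) : ∃ D : ℕ, ∀ (m : ℕ) (r : Fin m) (j : ℕ) (T : Finset (List (Fin m))),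
      r.1 = 0 → j ≤ m → D ^ m * D ^ m < T.card → (∀ μ ∈ T, μ.length = j) →
      ∃ μ ∈ T, ¬ ∃ φ : Fin m → S, φ r = 1 ∧ (∀ k v u, Rl μ k v u → (φ v)⁻¹ * φ u ∈ K) ∧
        ∀ u v, u ≠ v → (φ u)⁻¹ * φ v ∉ U := by
  classical
  obtain ⟨D, ν, nx, n1, n2⟩ := net hU hK
  refine ⟨D, fun m r j T hr hj hc hl => ?_⟩
  by_contra hh
  push Not at hh
  choose! φ f1 f2 f3 using hh
  have ch : ∀ μ k v, ∃ c : Fin D, μ ∈ T → ∀ u, Rl μ k v u → ν (φ μ u) = nx (ν (φ μ v)) c := by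
    intro μ k v
    by_cases h : μ ∈ T ∧ ∃ u, Rl μ k v u
    · obtain ⟨hμ, u, hu⟩ := h
      obtain ⟨c, hc⟩ := n2 (φ μ v) _ (f2 μ hμ k v u hu)
      refine ⟨c, fun _ u' hu' => ?_⟩
      have : u' = u := by
        cases k <;> simp [Rl] at hu hu'
        · exact Fin.ext (by omega)
        · rw [hu] at hu'; exact (Option.some.inj hu').symm
      rw [this, ← hc]; simp
    · obtain ⟨c, -⟩ := n2 1 1 h1
      exact ⟨c, fun hμ u hu => (h ⟨hμ, u, hu⟩).elim⟩
  choose c hc' using ch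
  have := Finset.card_le_card_of_injOn (s := T)
    (t := (Finset.univ : Finset ((Fin m → Fin D) × (Fin m → Fin D))))
    (fun μ => (c μ false, c μ true)) (by simp) (by
      intro μ hμ μ' hμ' e
      simp only [Prod.mk.injEq] at e
      have a1 : ∀ i (hi : i < m), ν (φ μ ⟨i, hi⟩) = ν (φ μ' ⟨i, hi⟩) := by
        intro i
        induction i with
        | zero =>
          intro hi
          rw [show (⟨0, hi⟩ : Fin m) = r from Fin.ext hr.symm, f1 μ hμ, f1 μ' hμ']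
        | succ i ih =>
          intro hi
          rw [hc' μ false ⟨i, by omega⟩ hμ ⟨i + 1, hi⟩ (by simp [Rl]),
            hc' μ' false ⟨i, by omega⟩ hμ' ⟨i + 1, hi⟩ (by simp [Rl]), ih, e.1]
      apply List.ext_getElem ((hl μ hμ).trans (hl μ' hμ').symm)
      intro i i1 i2
      have i3 : i < m := by have := hl μ hμ; omega
      by_contra hne
      apply f3 μ hμ _ _ hne
      apply n1
      rw [hc' μ true ⟨i, i3⟩ hμ μ[i] (by simp [Rl]), a1 i i3, e.2,
        ← hc' μ' true ⟨i, i3⟩ hμ' μ'[i] (by simp [Rl])]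
      exact (a1 _ _).symm)
  simp only [Finset.card_univ, Fintype.card_prod, Fintype.card_fun, Fintype.card_fin] at this
  omega

end

def wd {P : Type} [Group P] (j : ℕ) (z a b : P) : P :=
  (z ^ j)⁻¹ * a * z ^ j * b * ((z ^ j)⁻¹ * a * z ^ j)⁻¹ * b⁻¹

def MM (Q T : Type) [Group Q] : (T → Q) →* Equiv.Perm (Q × T) where
  toFun F :=
    { toFun := fun x => (F x.2 * x.1, x.2)
      invFun := fun x => ((F x.2)⁻¹ * x.1, x.2)
      left_inv := fun x => by simp
      right_inv := fun x => by simp }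
  map_one' := by ext x <;> simp
  map_mul' F F' := by ext x <;> simp [mul_assoc]

def PP (Q T : Type) : Equiv.Perm T →* Equiv.Perm (Q × T) where
  toFun σ := Equiv.prodCongr (Equiv.refl Q) σ
  map_one' := by ext x <;> simp
  map_mul' F F' := by ext x <;> simp

theorem PM {Q T : Type} [Group Q] (σ : Equiv.Perm T) (F : T → Q) :
    (PP Q T σ)⁻¹ * MM Q T F * PP Q T σ = MM Q T (fun t => F (σ t)) := by
  rw [← map_inv]
  ext x <;> simp [PP, MM]

def zz : Equiv.Perm (ℤ × ℤ) := Equiv.prodCongr (Equiv.refl ℤ) (Equiv.addRight 1)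

def bb : Equiv.Perm (ℤ × ℤ) where
  toFun t := if t.2 = 0 then (t.1 + 1, t.2) else t
  invFun t := if t.2 = 0 then (t.1 - 1, t.2) else t
  left_inv t := by by_cases h : t.2 = 0 <;> simp [h]; exact Prod.ext rfl h.symm
  right_inv t := by by_cases h : t.2 = 0 <;> simp [h]; exact Prod.ext rfl h.symm

theorem zz_pow (j : ℕ) (t : ℤ × ℤ) : (zz ^ j) t = (t.1, t.2 + j) := by
  induction j with
  | zero => simp
  | succ j ih => rw [pow_succ', Equiv.Perm.mul_apply, ih]; simp [zz, add_assoc]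

theorem envelope {β : Type} (G : ℕ → Type) [∀ j, Group (G j)] (gen : ∀ j, β → G j) :
    ∃ (P : Type) (_ : Group P) (a : β → P) (z b c e : P) (ι : ∀ j, G j →* P),
      (∀ j s, ι j (gen j s) = wd j z (a s) b) ∧ c * e ≠ e * c ∧
      ∀ j x, x ≠ 1 → c * (ι j x * e * (ι j x)⁻¹) = (ι j x * e * (ι j x)⁻¹) * c := by
  classical
  let Q := ∀ j, G j
  let F : β → ℤ × ℤ → Q := fun s t =>
    if 0 ≤ t.1 then Pi.mulSingle t.2.toNat (gen t.2.toNat s) else 1
  let ι : ∀ j, G j →* Equiv.Perm (Q × ℤ × ℤ) := fun j => (MM Q (ℤ × ℤ)).comp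
    ((MonoidHom.mulSingle (fun _ : ℤ × ℤ => Q) (0, 0)).comp (MonoidHom.mulSingle G j))
  refine ⟨Equiv.Perm (Q × ℤ × ℤ), inferInstance, fun s => MM Q _ (F s), PP Q _ zz, PP Q _ bb,
    Equiv.swap (1, 0, 0) (1, 1, 0), Equiv.swap (1, 0, 0) (1, 2, 0), ι, ?_, ?_, ?_⟩
  · intro j s
    unfold wd
    rw [← map_pow, PM, ← map_inv (MM Q _), mul_assoc, mul_assoc]
    have := PM (Q := Q) bb⁻¹ (fun t => F s ((zz ^ j) t))⁻¹
    rw [map_inv (PP Q _), inv_inv, mul_assoc] at this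
    rw [this, ← map_mul]
    simp only [ι, MonoidHom.comp_apply]
    congr 1
    funext ⟨n, p⟩
    simp only [MonoidHom.mulSingle_apply, Pi.mul_apply, Pi.inv_apply, zz_pow]
    have hb : bb⁻¹ (n, p) = if p = 0 then (n - 1, p) else (n, p) := rfl
    rw [hb]
    by_cases hp : p = 0
    · subst hp
      by_cases hn : n = 0
      · subst hn; simp [F]; rfl
      · rw [Pi.mulSingle_eq_of_ne (by simpa using hn)]
        have : (0 ≤ n) ↔ (0 ≤ n - 1) := by omega
        simp only [F, if_true, ← this]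
        exact (mul_inv_cancel (_ : ∀ j, G j)).symm
    · rw [Pi.mulSingle_eq_of_ne (by simp [hp])]
      simp only [if_neg hp]
      exact (mul_inv_cancel (_ : ∀ j, G j)).symm
  · intro h
    have := congrArg (fun σ : Equiv.Perm (Q × ℤ × ℤ) => σ (1, 0, 0)) h
    simp [Equiv.swap_apply_of_ne_of_ne] at this
  · intro j x hx
    rw [← Equiv.swap_apply_apply]
    have e1 : ι j x (1, 0, 0) = (Pi.mulSingle j x, 0, 0) := by simp [ι, MM]; rfl
    have e2 : ι j x (1, 2, 0) = (1, 2, 0) := by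
      simp [ι, MM, Pi.mulSingle_eq_of_ne]
    rw [e1, e2]
    have hx' : (Pi.mulSingle j x : Q) ≠ 1 := by simpa using hx
    apply Equiv.Perm.Disjoint.commute
    apply Equiv.Perm.disjoint_swap_swap
    simp [hx'.symm]

end Pool.Agent.H.MP_b05523_al
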