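import Mathlib

set_option autoImplicit false

namespace Pool.Agent.H.MP_b05523_al
open FreeGroup

variable {α : Type} [DecidableEq α]

/-- tree distance in the free group -/
def d (x y : FreeGroup α) : ℕ := (x⁻¹ * y).norm

theorem d_self (x : FreeGroup α) : d x x = 0 := by simp [d]
theorem d_zero {x y : FreeGroup α} (h : d x y = 0) : x = y := by
  have := norm_eq_zero.1 h
  exact (inv_mul_eq_one.1 this)
theorem d_symm (x y : FreeGroup α) : d x y = d y x := by
  unfold d; rw [← norm_inv_eq]; simp
theorem d_tri (x y z : FreeGroup α) : d x z ≤ d x y + d y z := by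
  unfold d
  have := norm_mul_le (x⁻¹ * y) (y⁻¹ * z)
  simpa [mul_assoc] using this
theorem d_mul (g x y : FreeGroup α) : d (g * x) (g * y) = d x y := by
  unfold d; congr 1; group

theorem norm_mk_red {L : List (α × Bool)} (h : IsReduced L) : (mk L).norm = L.length := by
  simp [FreeGroup.norm, toWord_mk, h.reduce_eq]

omit [DecidableEq α] in
theorem red_left {a b : List (α × Bool)} (h : IsReduced (a ++ b)) : IsReduced a :=
  List.IsChain.left_of_append h
omit [DecidableEq α] in
theorem red_right {a b : List (α × Bool)} (h : IsReduced (a ++ b)) : IsReduced b :=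
  List.IsChain.right_of_append h

theorem red_invRev {a : List (α × Bool)} (h : IsReduced a) : IsReduced (invRev a) := by
  rw [isReduced_iff_reduce_eq, reduce_invRev, h.reduce_eq]

theorem decomp (L1 : List (α × Bool)) : ∀ L2 : List (α × Bool), IsReduced L1 → IsReduced L2 →
    ∃ c a b, L1 = c ++ a ∧ L2 = c ++ b ∧ ((mk L1)⁻¹ * mk L2).norm = a.length + b.length := by
  induction L1 with
  | nil =>
    intro L2 _ h2
    refine ⟨[], [], L2, rfl, rfl, ?_⟩
    have : (mk ([] : List (α × Bool))) = 1 := rfl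
    simp [this, norm_mk_red h2]
  | cons x L1 ih =>
    intro L2 h1 h2
    cases L2 with
    | nil =>
      refine ⟨[], x :: L1, [], rfl, rfl, ?_⟩
      have : (mk ([] : List (α × Bool))) = 1 := rfl
      rw [this, mul_one, norm_inv_eq, norm_mk_red h1]; rfl
    | cons y L2 =>
      by_cases hxy : x = y
      · subst hxy
        obtain ⟨c, a, b, e1, e2, e3⟩ := ih L2 (red_right (a := [x]) h1) (red_right (a := [x]) h2)
        refine ⟨x :: c, a, b, by simp [e1], by simp [e2], ?_⟩
        have f1 : mk (x :: L1) = mk [x] * mk L1 := by rw [mul_mk]; rfl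
        have f2 : mk (x :: L2) = mk [x] * mk L2 := by rw [mul_mk]; rfl
        rw [f1, f2, ← e3]; congr 1; group
      · refine ⟨[], x :: L1, y :: L2, rfl, rfl, ?_⟩
        rw [inv_mk, mul_mk, norm_mk_red]
        · simp
        · have h3 := red_invRev h1
          unfold FreeGroup.IsReduced at *
          refine List.IsChain.append h3 h2 ?_
          intro u hu v hv
          simp [invRev] at hu hv
          subst hu hv
          intro h
          simp at h ⊢
          by_contra h4
          apply hxy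
          obtain ⟨x1, x2⟩ := x
          obtain ⟨y1, y2⟩ := y
          simp at h h4 ⊢
          refine ⟨h, ?_⟩
          cases x2 <;> cases y2 <;> simp_all

theorem d_pre {x : FreeGroup α} {c a : List (α × Bool)} (h : x.toWord = c ++ a) :
    d 1 (mk c) = c.length ∧ d (mk c) x = a.length ∧ d 1 x = c.length + a.length := by
  have hr : IsReduced (c ++ a) := h ▸ isReduced_toWord
  have hx : x = mk c * mk a := by rw [mul_mk, ← h, mk_toWord]
  refine ⟨by simp [d, norm_mk_red (red_left hr)], ?_, ?_⟩
  · unfold d; rw [hx, inv_mul_cancel_left, norm_mk_red (red_right hr)]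
  · simp [d, FreeGroup.norm, h]

theorem decomp' (x y : FreeGroup α) :
    ∃ c a b, x.toWord = c ++ a ∧ y.toWord = c ++ b ∧ d x y = a.length + b.length := by
  obtain ⟨c, a, b, e1, e2, e3⟩ := decomp x.toWord y.toWord isReduced_toWord isReduced_toWord
  exact ⟨c, a, b, e1, e2, by simpa [mk_toWord, d] using e3⟩

theorem four1 (x y z : FreeGroup α) :
    d x y + d z 1 ≤ d x z + d y 1 ∨ d x y + d z 1 ≤ d x 1 + d y z := by
  obtain ⟨c, a, b, e1, e2, e3⟩ := decomp' x z
  obtain ⟨c', a', b', f1, f2, f3⟩ := decomp' y z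
  have g1 := d_pre e1
  have g2 := d_pre e2
  have g3 := d_pre f1
  have g4 := d_pre f2
  rw [d_symm z 1, d_symm y 1, d_symm x 1]
  rcases List.append_eq_append_iff.1 (e2.symm.trans f2) with ⟨t, h1, h2⟩ | ⟨t, h1, h2⟩
  · left
    have g5 := d_pre (x := y) (c := c) (a := t ++ a') (by rw [f1, h1]; simp)
    have := d_tri x (mk c) y
    rw [d_symm x (mk c)] at this
    omega
  · right
    have g5 := d_pre (x := x) (c := c') (a := t ++ a) (by rw [e1, h1]; simp)
    have := d_tri x (mk c') y
    rw [d_symm x (mk c')] at this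
    omega

theorem four (x y z w : FreeGroup α) :
    d x y + d z w ≤ d x z + d y w ∨ d x y + d z w ≤ d x w + d y z := by
  have := four1 (w⁻¹ * x) (w⁻¹ * y) (w⁻¹ * z)
  rw [← inv_mul_cancel w] at this
  simpa only [d_mul] using this

/-- betweenness -/
def B (x z y : FreeGroup α) : Prop := d x z + d z y = d x y

theorem median (x y z : FreeGroup α) : ∃ m, B x m y ∧ B x m z ∧ B y m z := by
  obtain ⟨c, a, b, e1, e2, e3⟩ := decomp' (x⁻¹ * y) (x⁻¹ * z)
  have g1 := d_pre e1
  have g2 := d_pre e2
  refine ⟨x * mk c, ?_, ?_, ?_⟩ <;> unfold B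
  · rw [← d_mul x⁻¹ x, ← d_mul x⁻¹ (x * _), ← d_mul x⁻¹ x y]; simp; omega
  · rw [← d_mul x⁻¹ x, ← d_mul x⁻¹ (x * _), ← d_mul x⁻¹ x z]; simp; omega
  · rw [← d_mul x⁻¹ y, ← d_mul x⁻¹ (x * _), ← d_mul x⁻¹ y z]; simp
    rw [d_symm _ (mk c)]; omega

theorem step_down (y : FreeGroup α) (n : ℕ) (h : d 1 y = n + 1) : ∃ z, d 1 z = n ∧ d z y = 1 := by
  have hl : y.toWord.length = n + 1 := by simpa [d, FreeGroup.norm] using h
  have e : y.toWord = y.toWord.take n ++ y.toWord.drop n := by simp
  have := d_pre e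
  refine ⟨mk (y.toWord.take n), ?_, ?_⟩
  · rw [this.1]; simp; omega
  · rw [this.2.1]; simp; omega

theorem B.symm {x z y : FreeGroup α} (h : B x z y) : B y z x := by
  unfold B at *; rw [d_symm y z, d_symm z x, d_symm y x]; omega

theorem B.split {a w b : FreeGroup α} (h : B a w b) (z : FreeGroup α) : B a w z ∨ B z w b := by
  unfold B at *
  have h1 := four a b w z
  have h2 := d_tri a w z
  have h3 := d_tri z w b
  rw [d_symm b z, d_symm b w] at h1
  rw [d_symm z w] at h3 ⊢
  omega

theorem B.mul {x z y : FreeGroup α} (h : B x z y) (g : FreeGroup α) : B (g * x) (g * z) (g * y) := by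
  unfold B at *; simpa only [d_mul] using h

def Cvx (A : Set (FreeGroup α)) : Prop := ∀ x ∈ A, ∀ y ∈ A, ∀ z, B x z y → z ∈ A

def Pr (A : Set (FreeGroup α)) (y q : FreeGroup α) : Prop :=
  q ∈ A ∧ ∀ c ∈ A, B y q c

theorem exists_pr {A : Set (FreeGroup α)} (hA : Cvx A) (hn : A.Nonempty) (y : FreeGroup α) :
    ∃ q, Pr A y q := by
  obtain ⟨q, hq, hm⟩ := (measure (d y)).wf.has_min A hn
  refine ⟨q, hq, fun c hc => ?_⟩
  obtain ⟨m, h1, h2, h3⟩ := median y q c
  have h4 := hm m (hA q hq c hc m h3)
  have h5 : ¬ d y m < d y q := h4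
  have h6 : d m q = 0 := by unfold B at h1; omega
  rw [← d_zero h6]; exact h2

theorem Pr.two {A : Set (FreeGroup α)} {y y' q q' : FreeGroup α} (h : Pr A y q) (h' : Pr A y' q')
    (hne : q ≠ q') : d y y' = d y q + d q q' + d q' y' := by
  have h1 := h.2 q' h'.1
  have h2 := h'.2 q h.1
  have h3 := four y q' y' q
  have h4 : d q q' ≠ 0 := fun e => hne (d_zero e)
  have h5 := d_tri y q y'
  have h6 := d_tri q q' y'
  unfold B at *
  rw [d_symm q' q] at h2 h3
  rw [d_symm q' y'] at *
  omega

theorem Pr.two' {A : Set (FreeGroup α)} {y y' q q' : FreeGroup α} (h : Pr A y q) (h' : Pr A y' q')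
    (hne : q ≠ q') : B y q y' ∧ B y q' y' ∧ B y q q' ∧ B q q' y' := by
  have h1 := h.two h' hne
  have h2 := d_tri q q' y'
  have h3 := d_tri y q y'
  have h4 := d_tri y q q'
  have h5 := d_tri y q' y'
  unfold B
  omega

end Pool.Agent.H.MP_b05523_al
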