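import Pool.Agent.H.MP_b05523_al.Tree

set_option autoImplicit false

namespace Pool.Agent.H.MP_b05523_al

variable {α : Type} [DecidableEq α]

structure SC (C : Set (FreeGroup α)) (H : Subgroup (FreeGroup α)) (p g : ℕ) : Prop where
  one : (1 : FreeGroup α) ∈ C
  cvx : Cvx C
  inv : ∀ h ∈ H, ∀ c ∈ C, h * c ∈ C
  mv : ∀ h ∈ H, h ≠ 1 → ∀ c ∈ C, g ≤ d c (h * c)
  pc : ∀ f x y, x ∈ C → y ∈ C → f⁻¹ * x ∈ C → f⁻¹ * y ∈ C → p < d x y → f ∈ H
  big : 7 * p + 5 ≤ g

def Cf (C : Set (FreeGroup α)) (f : FreeGroup α) : Set (FreeGroup α) := {x | f⁻¹ * x ∈ C}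

def Abs (H N : Subgroup (FreeGroup α)) (f : FreeGroup α) : Prop := ∀ h, f⁻¹ * h * f ∈ H → h ∈ N

structure Inv (C : Set (FreeGroup α)) (H : Subgroup (FreeGroup α)) (p : ℕ)
    (W : Set (FreeGroup α)) (N : Subgroup (FreeGroup α)) : Prop where
  one : (1 : FreeGroup α) ∈ W
  cvx : Cvx W
  inv : ∀ n ∈ N, ∀ x ∈ W, n * x ∈ W
  dich : ∀ f, Abs H N f ∨ ∀ x ∈ Cf C f, ∀ y ∈ Cf C f, x ∈ W → y ∈ W → d x y ≤ 2 * p

def V (W : Set (FreeGroup α)) : Set (FreeGroup α) := {x | ∃ w ∈ W, d x w ≤ 1}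

def New (C : Set (FreeGroup α)) (H : Subgroup (FreeGroup α)) (W : Set (FreeGroup α))
    (N : Subgroup (FreeGroup α)) (f : FreeGroup α) : Prop :=
  (∃ b ∈ Cf C f, b ∈ V W) ∧ ¬ Abs H N f

variable {C : Set (FreeGroup α)} {H : Subgroup (FreeGroup α)} {p g : ℕ}
  {W : Set (FreeGroup α)} {N : Subgroup (FreeGroup α)}

theorem SC.cf_cvx (S : SC C H p g) (f : FreeGroup α) : Cvx (Cf C f) :=
  fun _ hx _ hy _ hz => S.cvx _ hx _ hy _ (hz.mul f⁻¹)

theorem SC.cf_self (S : SC C H p g) (f : FreeGroup α) : f ∈ Cf C f := by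
  simpa [Cf] using S.one

theorem SC.cf_inv (S : SC C H p g) {f h x : FreeGroup α} (hh : f⁻¹ * h * f ∈ H) (hx : x ∈ Cf C f) :
    h * x ∈ Cf C f := by
  have := S.inv _ hh _ hx
  simpa [Cf, mul_assoc] using this

theorem SC.cf_mv (S : SC C H p g) {f h x : FreeGroup α} (hh : f⁻¹ * h * f ∈ H) (h1 : h ≠ 1)
    (hx : x ∈ Cf C f) : g ≤ d x (h * x) := by
  have := S.mv _ hh (by
    intro e; apply h1
    have : h = f * (f⁻¹ * h * f) * f⁻¹ := by group
    rw [this, e]; simp) _ hx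
  rw [← d_mul f] at this
  simpa [mul_assoc] using this

theorem SC.cf_pc (S : SC C H p g) {f f' x y : FreeGroup α} (hn : f⁻¹ * f' ∉ H)
    (h1 : x ∈ Cf C f) (h2 : y ∈ Cf C f) (h3 : x ∈ Cf C f') (h4 : y ∈ Cf C f') : d x y ≤ p := by
  by_contra hc
  apply hn
  refine S.pc _ _ _ h1 h2 ?_ ?_ (by rw [d_mul]; omega)
  · simpa [Cf, mul_assoc] using h3
  · simpa [Cf, mul_assoc] using h4

theorem SC.cf_eq (S : SC C H p g) {f f' x : FreeGroup α} (hn : f⁻¹ * f' ∈ H)
    (h1 : x ∈ Cf C f') : x ∈ Cf C f := by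
  have := S.inv _ hn _ h1
  simpa [Cf, mul_assoc] using this

omit [DecidableEq α] in
theorem inH_eq {f f' h : FreeGroup α} (hn : f⁻¹ * f' ∈ H) (hh : f'⁻¹ * h * f' ∈ H) :
    f⁻¹ * h * f ∈ H := by
  have := H.mul_mem (H.mul_mem hn hh) (H.inv_mem hn)
  simpa [mul_assoc] using this

omit [DecidableEq α] in
theorem rel_symm {f f' : FreeGroup α} (hn : f⁻¹ * f' ∈ H) : f'⁻¹ * f ∈ H := by
  simpa using H.inv_mem hn

omit [DecidableEq α] in
theorem inH_inv {f h : FreeGroup α} (hh : f⁻¹ * h * f ∈ H) : f⁻¹ * h⁻¹ * f ∈ H := by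
  simpa [mul_assoc] using H.inv_mem hh

theorem SC.pr_mul (S : SC C H p g) {f h y q : FreeGroup α} (hh : f⁻¹ * h * f ∈ H)
    (hq : Pr (Cf C f) y q) : Pr (Cf C f) (h * y) (h * q) := by
  refine ⟨S.cf_inv hh hq.1, fun c hc => ?_⟩
  have := (hq.2 _ (S.cf_inv (inH_inv hh) hc)).mul h
  simpa using this

theorem SC.ex_pr (S : SC C H p g) (f y : FreeGroup α) : ∃ q, Pr (Cf C f) y q :=
  exists_pr (S.cf_cvx f) ⟨f, S.cf_self f⟩ y

theorem sub_V {x : FreeGroup α} (h : x ∈ W) : x ∈ V W := ⟨x, h, by simp [d_self]⟩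

theorem Inv.V_cvx (I : Inv C H p W N) : Cvx (V W) := by
  rintro x ⟨a, ha, hxa⟩ y ⟨b, hb, hyb⟩ z hz
  rcases hz.split a with h | h
  · exact ⟨a, ha, by unfold B at h; omega⟩
  · rcases h.split b with h | h
    · exact sub_V (I.cvx a ha b hb z h)
    · exact ⟨b, hb, by unfold B at h; rw [d_symm b y] at h; rw [d_symm]; omega⟩

theorem Inv.V_inv (I : Inv C H p W N) {n x : FreeGroup α} (hn : n ∈ N) (hx : x ∈ V W) :
    n * x ∈ V W := by
  obtain ⟨a, ha, h⟩ := hx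
  exact ⟨n * a, I.inv n hn a ha, by rwa [d_mul]⟩

theorem Inv.diam (S : SC C H p g) (I : Inv C H p W N) {f x y : FreeGroup α} (hf : ¬ Abs H N f)
    (hx : x ∈ Cf C f) (hy : y ∈ Cf C f) (hx' : x ∈ V W) (hy' : y ∈ V W) : d x y ≤ 2 * p + 2 := by
  obtain ⟨a, ha, hxa⟩ := hx'
  obtain ⟨b, hb, hyb⟩ := hy'
  obtain ⟨q, hq⟩ := S.ex_pr f a
  obtain ⟨r, hr⟩ := S.ex_pr f b
  have h1 := hq.2 x hx
  have h2 := hr.2 y hy
  have h3 : d q r ≤ 2 * p := by
    by_cases e : q = r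
    · rw [e, d_self]; omega
    · have := hq.two' hr e
      exact (I.dich f).resolve_left hf q hq.1 r hr.1 (I.cvx a ha b hb _ this.1)
        (I.cvx a ha b hb _ this.2.1)
  have h4 := d_tri x q y
  have h5 := d_tri q r y
  unfold B at *
  rw [d_symm a x] at h1
  rw [d_symm b y] at h2
  rw [d_symm x q] at h4
  omega

def Near (C W : Set (FreeGroup α)) (p : ℕ) (f y : FreeGroup α) : Prop :=
  ∀ q, Pr (Cf C f) y q → ∀ b ∈ Cf C f, b ∈ V W → d q b ≤ 3 * p + 2

def Far (C W : Set (FreeGroup α)) (p g : ℕ) (f y : FreeGroup α) : Prop :=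
  ∀ q, Pr (Cf C f) y q → ∀ b ∈ Cf C f, b ∈ V W → g ≤ d q b + (3 * p + 2)

theorem pr_V (I : Inv C H p W N) {f y q b : FreeGroup α} (hy : y ∈ V W) (hq : Pr (Cf C f) y q)
    (hb : b ∈ Cf C f) (hb' : b ∈ V W) : q ∈ V W :=
  I.V_cvx y hy b hb' q (hq.2 b hb)

theorem near_V (S : SC C H p g) (I : Inv C H p W N) {f y : FreeGroup α} (hf : New C H W N f)
    (hy : y ∈ V W) : Near C W p f y := by
  intro q hq b hb hb'
  have := I.diam S hf.2 hq.1 hb (pr_V I hy hq hb hb') hb'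
  omega

theorem near_C (S : SC C H p g) (I : Inv C H p W N) {f f' y : FreeGroup α} (hf : New C H W N f)
    (hf' : New C H W N f') (hn : f⁻¹ * f' ∉ H) (hy : y ∈ Cf C f') : Near C W p f y := by
  intro q hq b hb hb'
  obtain ⟨c, hc, hc'⟩ := hf'.1
  obtain ⟨t, ht⟩ := S.ex_pr f c
  have h1 := I.diam S hf.2 ht.1 hb (pr_V I hc' ht hb hb') hb'
  have h2 : d q t ≤ p := by
    by_cases e : q = t
    · rw [e, d_self]; omega
    · have := hq.two' ht e
      exact S.cf_pc hn hq.1 ht.1 (S.cf_cvx f' y hy c hc _ this.1) (S.cf_cvx f' y hy c hc _ this.2.1)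
  have := d_tri q t b
  omega

theorem near_far (S : SC C H p g) (I : Inv C H p W N) {f f' y : FreeGroup α} (hf : New C H W N f)
    (hf' : New C H W N f') (hn : f⁻¹ * f' ∉ H) (hy : Far C W p g f' y) : Near C W p f y := by
  intro q hq b hb hb'
  obtain ⟨c, hc, hc'⟩ := hf'.1
  obtain ⟨t, ht⟩ := S.ex_pr f c
  have htV := pr_V I hc' ht hb hb'
  have h1 := I.diam S hf.2 ht.1 hb htV hb'
  have hbig := S.big
  have h2 : d q t ≤ p := by
    by_cases e : q = t
    · rw [e, d_self]; omega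
    · have h3 := hq.two' ht e
      obtain ⟨r, hr⟩ := S.ex_pr f' y
      have h4 := hr.2 c hc
      have h5 := hy r hr
      rcases h4.split t with h6 | h6
      · have h7 : B r t c := by
          have := h3.2.1
          unfold B at *; omega
        have h8 : t ∈ Cf C f' := S.cf_cvx f' r hr.1 c hc t h7
        rcases h6.split q with h9 | h9
        · have h10 : B r q t := by
            have := h3.2.2.1
            unfold B at *
            have := d_tri r q t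
            have := d_tri y r t
            omega
          exact S.cf_pc hn hq.1 ht.1 (S.cf_cvx f' r hr.1 t h8 q h10) h8
        · have h10 : r ∈ Cf C f := S.cf_cvx f q hq.1 t ht.1 r h9
          have := S.cf_pc hn h10 ht.1 hr.1 h8
          have := h5 t h8 htV
          omega
      · have h7 : r ∈ V W := I.V_cvx t htV c hc' r h6
        have := I.diam S hf'.2 hr.1 hc h7 hc'
        have := h5 c hc hc'
        omega
  have := d_tri q t b
  omega

theorem far_mul (S : SC C H p g) {f h y : FreeGroup α} (hh : f⁻¹ * h * f ∈ H) (h1 : h ≠ 1)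
    (hy : Near C W p f y) : Far C W p g f (h * y) := by
  intro q hq b hb hb'
  have h2 := S.pr_mul (inH_inv hh) hq
  simp only [inv_mul_cancel_left] at h2
  have h3 := hy _ h2 b hb hb'
  have h4 := S.cf_mv hh h1 h2.1
  simp only [mul_inv_cancel_left] at h4
  have h5 := d_tri (h⁻¹ * q) b q
  rw [d_symm b q] at h5
  omega

theorem not_near_far (S : SC C H p g) {f y : FreeGroup α} (hf : New C H W N f)
    (h1 : Near C W p f y) (h2 : Far C W p g f y) : False := by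
  obtain ⟨b, hb, hb'⟩ := hf.1
  obtain ⟨q, hq⟩ := S.ex_pr f y
  have := h1 q hq b hb hb'
  have := h2 q hq b hb hb'
  have := S.big
  omega

inductive Rd (C : Set (FreeGroup α)) (H : Subgroup (FreeGroup α)) (W : Set (FreeGroup α))
    (N : Subgroup (FreeGroup α)) : FreeGroup α → FreeGroup α → Prop
  | one (f h : FreeGroup α) : New C H W N f → f⁻¹ * h * f ∈ H → h ≠ 1 → Rd C H W N f h
  | cons (f f1 h k : FreeGroup α) : New C H W N f → f⁻¹ * h * f ∈ H → h ≠ 1 → f⁻¹ * f1 ∉ H →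
      Rd C H W N f1 k → Rd C H W N f (h * k)

theorem Rd.new {f k : FreeGroup α} (h : Rd C H W N f k) : New C H W N f := by
  cases h <;> assumption

def K (C : Set (FreeGroup α)) (H : Subgroup (FreeGroup α)) (W : Set (FreeGroup α))
    (N : Subgroup (FreeGroup α)) : Subgroup (FreeGroup α) :=
  Subgroup.closure {h | ∃ f, New C H W N f ∧ f⁻¹ * h * f ∈ H}

theorem mem_K {f h : FreeGroup α} (hf : New C H W N f) (hh : f⁻¹ * h * f ∈ H) : h ∈ K C H W N :=
  Subgroup.subset_closure ⟨f, hf, hh⟩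

theorem rd_step {f h k : FreeGroup α} (hf : New C H W N f) (hh : f⁻¹ * h * f ∈ H)
    (hk : k = 1 ∨ ∃ f1, Rd C H W N f1 k) : h * k = 1 ∨ ∃ f1, Rd C H W N f1 (h * k) := by
  by_cases h1 : h = 1
  · simpa [h1] using hk
  rcases hk with rfl | ⟨f1, hk⟩
  · exact Or.inr ⟨f, by simpa using Rd.one f h hf hh h1⟩
  by_cases hr : f⁻¹ * f1 ∈ H
  swap
  · exact Or.inr ⟨f, Rd.cons f f1 h k hf hh h1 hr hk⟩
  have hh1 := inH_eq (rel_symm hr) hh
  cases hk with
  | one _ _ a b c =>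
    by_cases e : h * k = 1
    · exact Or.inl e
    · refine Or.inr ⟨f1, Rd.one f1 _ a ?_ e⟩
      simpa [mul_assoc] using H.mul_mem hh1 b
  | cons _ f2 h' k' a b c e r =>
    by_cases e' : h * h' = 1
    · refine Or.inr ⟨f2, ?_⟩
      rw [← mul_assoc, e', one_mul]; exact r
    · refine Or.inr ⟨f1, ?_⟩
      rw [← mul_assoc]
      refine Rd.cons f1 f2 _ _ a ?_ e' e r
      simpa [mul_assoc] using H.mul_mem hh1 b

theorem K_rd {k : FreeGroup α} (hk : k ∈ K C H W N) : k = 1 ∨ ∃ f, Rd C H W N f k := by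
  induction hk using Subgroup.closure_induction_left with
  | one => exact Or.inl rfl
  | mul_left x hx y _ ih => obtain ⟨f, a, b⟩ := hx; exact rd_step a b ih
  | inv_mul_cancel x hx y _ ih => obtain ⟨f, a, b⟩ := hx; exact rd_step a (inH_inv b) ih

theorem rd_V (S : SC C H p g) (I : Inv C H p W N) {f k y : FreeGroup α} (h : Rd C H W N f k)
    (hy : y ∈ V W) : Far C W p g f (k * y) := by
  induction h with
  | one f h a b c => exact far_mul S b c (near_V S I a hy)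
  | cons f f1 h k a b c e r ih =>
    rw [mul_assoc]; exact far_mul S b c (near_far S I a r.new e ih)

theorem rd_C (S : SC C H p g) (I : Inv C H p W N) {f k f2 y : FreeGroup α} (h : Rd C H W N f k)
    (hf2 : New C H W N f2) (hy : y ∈ Cf C f2) : Far C W p g f (k * y) ∨ k * y ∈ Cf C f := by
  induction h with
  | one f h a b c =>
    by_cases e : f⁻¹ * f2 ∈ H
    · exact Or.inr (S.cf_inv b (S.cf_eq e hy))
    · exact Or.inl (far_mul S b c (near_C S I a hf2 e hy))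
  | cons f f1 h k a b c e r ih =>
    left
    rw [mul_assoc]
    rcases ih with ih | ih
    · exact far_mul S b c (near_far S I a r.new e ih)
    · exact far_mul S b c (near_C S I a r.new e ih)

theorem down_up (S : SC C H p g) (I : Inv C H p W N) {f0 f1 f2 u z : FreeGroup α}
    (h0 : ∀ x ∈ Cf C f0, x ∉ V W) (h1 : New C H W N f1) (h2 : New C H W N f2)
    (hu : u ∈ Cf C f0) (hz : z ∈ Cf C f0) (hu1 : u ∈ Cf C f1) (hz2 : z ∈ Cf C f2) :
    d u z ≤ 2 * p := by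
  obtain ⟨b1, hb1, hb1'⟩ := h1.1
  obtain ⟨b2, hb2, hb2'⟩ := h2.1
  have n1 : f0⁻¹ * f1 ∉ H := fun e => h0 b1 (S.cf_eq e hb1) hb1'
  have n2 : f0⁻¹ * f2 ∉ H := fun e => h0 b2 (S.cf_eq e hb2) hb2'
  obtain ⟨m, m1, m2, m3⟩ := median u z b1
  have hm0 := S.cf_cvx f0 u hu z hz m m1
  have hm1 := S.cf_cvx f1 u hu1 b1 hb1 m m2
  have e1 := S.cf_pc n1 hu hm0 hu1 hm1
  rcases m3.split b2 with h | h
  · have e2 := S.cf_pc n2 hm0 hz (S.cf_cvx f2 z hz2 b2 hb2 m h) hz2
    unfold B at m1; omega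
  · exact (h0 m hm0 (I.V_cvx b2 hb2' b1 hb1' m h)).elim

theorem lemA (S : SC C H p g) (I : Inv C H p W N) {f0 f1 f2 u z : FreeGroup α}
    (h0 : ∀ x ∈ Cf C f0, x ∉ V W) (h1 : New C H W N f1) (h2 : New C H W N f2)
    (hn : f2⁻¹ * f1 ∉ H) (hu : u ∈ Cf C f0) (hz : z ∈ Cf C f0) (hu1 : u ∈ Cf C f1)
    (hz2 : Far C W p g f2 z ∨ z ∈ Cf C f2) : d u z ≤ 2 * p := by
  rcases hz2 with hz2 | hz2
  swap
  · exact down_up S I h0 h1 h2 hu hz hu1 hz2
  exfalso
  have a1 := near_C S I h2 h1 hn hu1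
  obtain ⟨b2, hb2, hb2'⟩ := h2.1
  have n2 : f0⁻¹ * f2 ∉ H := fun e => h0 b2 (S.cf_eq e hb2) hb2'
  obtain ⟨q, hq⟩ := S.ex_pr f2 u
  obtain ⟨r, hr⟩ := S.ex_pr f2 z
  have e1 := a1 q hq b2 hb2 hb2'
  have e2 := hz2 r hr b2 hb2 hb2'
  have e3 := d_tri r q b2
  have := S.big
  by_cases e : q = r
  · subst e; omega
  · have t := hq.two' hr e
    have := S.cf_pc n2 (S.cf_cvx f0 u hu z hz _ t.1) (S.cf_cvx f0 u hu z hz _ t.2.1) hq.1 hr.1
    rw [d_symm r q] at e3
    omega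

def U (C : Set (FreeGroup α)) (H : Subgroup (FreeGroup α)) (W : Set (FreeGroup α))
    (N : Subgroup (FreeGroup α)) : Set (FreeGroup α) :=
  {x | x ∈ V W ∨ ∃ f, New C H W N f ∧ x ∈ Cf C f}

def W' (C : Set (FreeGroup α)) (H : Subgroup (FreeGroup α)) (W : Set (FreeGroup α))
    (N : Subgroup (FreeGroup α)) : Set (FreeGroup α) :=
  {x | ∃ k ∈ K C H W N, ∃ u ∈ U C H W N, x = k * u}

theorem new_mul (I : Inv C H p W N) {a f : FreeGroup α} (ha : a ∈ N) (hf : New C H W N f) :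
    New C H W N (a * f) := by
  obtain ⟨⟨b, hb, hb'⟩, h2⟩ := hf
  refine ⟨⟨a * b, by simpa [Cf, mul_assoc] using hb, I.V_inv ha hb'⟩, fun h => h2 fun x hx => ?_⟩
  have := h (a * x * a⁻¹) (by simpa [mul_assoc] using hx)
  have := N.mul_mem (N.mul_mem (N.inv_mem ha) this) ha
  simpa [mul_assoc] using this

theorem K_conj (I : Inv C H p W N) {a k : FreeGroup α} (ha : a ∈ N) (hk : k ∈ K C H W N) :
    a * k * a⁻¹ ∈ K C H W N := by
  induction hk using Subgroup.closure_induction with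
  | mem x hx =>
    obtain ⟨f, h1, h2⟩ := hx
    exact mem_K (new_mul I ha h1) (by simpa [mul_assoc] using h2)
  | one => simp
  | mul x y _ _ h1 h2 => simpa [mul_assoc] using (K C H W N).mul_mem h1 h2
  | inv x _ h1 => simpa [mul_assoc] using (K C H W N).inv_mem h1

def N' (I : Inv C H p W N) : Subgroup (FreeGroup α) where
  carrier := {n | ∃ k ∈ K C H W N, ∃ a ∈ N, n = k * a}
  one_mem' := ⟨1, (K C H W N).one_mem, 1, N.one_mem, by simp⟩
  mul_mem' := by
    rintro _ _ ⟨k, hk, a, ha, rfl⟩ ⟨k', hk', a', ha', rfl⟩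
    exact ⟨_, (K C H W N).mul_mem hk (K_conj I ha hk'), _, N.mul_mem ha ha', by group⟩
  inv_mem' := by
    rintro _ ⟨k, hk, a, ha, rfl⟩
    exact ⟨_, K_conj I (N.inv_mem ha) ((K C H W N).inv_mem hk), _, N.inv_mem ha, by group⟩

theorem le_N' (I : Inv C H p W N) {a : FreeGroup α} (ha : a ∈ N) : a ∈ N' I :=
  ⟨1, (K C H W N).one_mem, a, ha, by simp⟩

theorem K_N' (I : Inv C H p W N) {k : FreeGroup α} (hk : k ∈ K C H W N) : k ∈ N' I :=
  ⟨k, hk, 1, N.one_mem, by simp⟩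

theorem abs_N' (I : Inv C H p W N) {f b : FreeGroup α} (hb : b ∈ Cf C f) (hb' : b ∈ V W) :
    Abs H (N' I) f := by
  intro h hh
  by_cases e : Abs H N f
  · exact le_N' I (e h hh)
  · exact K_N' I (mem_K ⟨⟨b, hb, hb'⟩, e⟩ hh)

theorem U_W' {u : FreeGroup α} (hu : u ∈ U C H W N) : u ∈ W' C H W N :=
  ⟨1, (K C H W N).one_mem, u, hu, by simp⟩

theorem W'_K {k x : FreeGroup α} (hk : k ∈ K C H W N) (hx : x ∈ W' C H W N) :
    k * x ∈ W' C H W N := by
  obtain ⟨k', hk', u, hu, rfl⟩ := hx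
  exact ⟨_, (K C H W N).mul_mem hk hk', u, hu, by group⟩

theorem step_back (S : SC C H p g) (I : Inv C H p W N) {n x : FreeGroup α} (hn : n ∈ N' I)
    (hx : x ∈ V W) (hx' : n * x ∈ V W) : n ∈ N := by
  obtain ⟨k, hk, a, ha, rfl⟩ := hn
  rcases K_rd hk with rfl | ⟨f, hf⟩
  · simpa using ha
  · exfalso
    rw [mul_assoc] at hx'
    exact not_near_far S hf.new (near_V S I hf.new hx') (rd_V S I hf (I.V_inv ha hx))

theorem W'_cvx (S : SC C H p g) (I : Inv C H p W N) : Cvx (W' C H W N) := by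
  let R : FreeGroup α → FreeGroup α → Prop := fun x y => ∀ z, B x z y → z ∈ W' C H W N
  have Rs : ∀ x y, R x y → R y x := fun x y h z hz => h z hz.symm
  have Rt : ∀ x y w, R x y → R y w → R x w := fun x y w h1 h2 z hz =>
    (hz.split y).elim (h1 z) (h2 z)
  have Rk : ∀ k ∈ K C H W N, ∀ x y, R x y → R (k * x) (k * y) := by
    intro k hk x y h z hz
    have := h (k⁻¹ * z) (by simpa using hz.mul k⁻¹)
    simpa using W'_K hk this
  have RV : ∀ x ∈ V W, ∀ y ∈ V W, R x y := fun x hx y hy z hz =>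
    U_W' (Or.inl (I.V_cvx x hx y hy z hz))
  have RC : ∀ f, New C H W N f → ∀ x ∈ Cf C f, ∀ y ∈ Cf C f, R x y := fun f hf x hx y hy z hz =>
    U_W' (Or.inr ⟨f, hf, S.cf_cvx f x hx y hy z hz⟩)
  have h1 : (1 : FreeGroup α) ∈ V W := sub_V I.one
  have RK : ∀ k ∈ K C H W N, R 1 k := by
    intro k hk
    induction hk using Subgroup.closure_induction with
    | mem h hh =>
      obtain ⟨f, hf, hh⟩ := hh
      obtain ⟨b, hb, hb'⟩ := hf.1
      refine Rt _ b _ (RV _ h1 _ hb') (Rt _ (h * b) _ (RC f hf _ hb _ (S.cf_inv hh hb)) ?_)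
      simpa using Rk h (mem_K hf hh) _ _ (RV _ hb' _ h1)
    | one => exact RV _ h1 _ h1
    | mul x y hx _ a b => exact Rt _ x _ a (by simpa using Rk x hx _ _ b)
    | inv x hx a => exact Rs _ _ (by simpa using Rk x⁻¹ ((K C H W N).inv_mem hx) _ _ a)
  have RU : ∀ u ∈ U C H W N, R 1 u := by
    rintro u (hu | ⟨f, hf, hu⟩)
    · exact RV _ h1 _ hu
    · obtain ⟨b, hb, hb'⟩ := hf.1
      exact Rt _ b _ (RV _ h1 _ hb') (RC f hf _ hb _ hu)
  have RW : ∀ x ∈ W' C H W N, R 1 x := by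
    rintro _ ⟨k, hk, u, hu, rfl⟩
    exact Rt _ k _ (RK k hk) (by simpa using Rk k hk _ _ (RU u hu))
  intro x hx y hy
  exact Rt _ 1 _ (Rs _ _ (RW x hx)) (RW y hy)

theorem step_inv (S : SC C H p g) (I : Inv C H p W N) : Inv C H p (W' C H W N) (N' I) where
  one := U_W' (Or.inl (sub_V I.one))
  cvx := W'_cvx S I
  inv := by
    rintro _ ⟨k, hk, a, ha, rfl⟩ _ ⟨k', hk', u, hu, rfl⟩
    refine ⟨k * (a * k' * a⁻¹), (K C H W N).mul_mem hk (K_conj I ha hk'), a * u, ?_, by group⟩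
    rcases hu with hu | ⟨f, hf, hu⟩
    · exact Or.inl (I.V_inv ha hu)
    · exact Or.inr ⟨a * f, new_mul I ha hf, by simpa [Cf, mul_assoc] using hu⟩
  dich := by
    intro f
    by_cases hf : ∃ k ∈ K C H W N, ∃ b ∈ Cf C (k⁻¹ * f), b ∈ V W
    · left
      obtain ⟨k, hk, b, hb, hb'⟩ := hf
      intro h hh
      have := abs_N' I hb hb' (k⁻¹ * h * k) (by simpa [mul_assoc] using hh)
      have := (N' I).mul_mem ((N' I).mul_mem (K_N' I hk) this) ((N' I).inv_mem (K_N' I hk))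
      simpa [mul_assoc] using this
    right
    push Not at hf
    rintro _ hx _ hy ⟨k1, hk1, u1, hu1, rfl⟩ ⟨k2, hk2, u2, hu2, rfl⟩
    have tr : ∀ k x, k * x ∈ Cf C f → x ∈ Cf C (k⁻¹ * f) := fun k x h => by
      simpa [Cf, mul_assoc] using h
    obtain ⟨f1, hf1, hu1⟩ := hu1.resolve_left (hf k1 hk1 u1 (tr _ _ hx))
    obtain ⟨f2, hf2, hu2⟩ := hu2.resolve_left (hf k2 hk2 u2 (tr _ _ hy))
    have hk := (K C H W N).mul_mem ((K C H W N).inv_mem hk1) hk2
    have e : d (k1 * u1) (k2 * u2) = d u1 (k1⁻¹ * k2 * u2) := by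
      rw [← d_mul k1⁻¹]; simp [mul_assoc]
    rw [e]
    have hy' : k1⁻¹ * k2 * u2 ∈ Cf C (k1⁻¹ * f) := tr _ _ (by simpa [mul_assoc] using hy)
    have hx' := tr _ _ hx
    generalize k1⁻¹ * k2 = k at hk hy'
    rcases K_rd hk with rfl | ⟨f3, h3⟩
    · exact down_up S I (hf k1 hk1) hf1 hf2 hx' hy' hu1 (by simpa using hu2)
    by_cases e3 : f3⁻¹ * f1 ∈ H
    swap
    · exact lemA S I (hf k1 hk1) hf1 h3.new e3 hx' hy' hu1 (rd_C S I h3 hf2 hu2)
    cases h3 with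
    | one _ _ a b c =>
      have hk' := (K C H W N).mul_mem hk1 hk
      rw [← d_mul k⁻¹, inv_mul_cancel_left]
      refine down_up S I (hf _ hk') a hf2 (tr _ _ (by simpa [mul_assoc] using hx)) ?_
        (S.cf_inv (inH_inv b) (S.cf_eq e3 hu1)) hu2
      simpa [Cf, mul_assoc] using hy'
    | cons _ f4 h k' a b c e4 r =>
      have hk' := (K C H W N).mul_mem hk1 (mem_K a b)
      rw [← d_mul h⁻¹, mul_assoc, inv_mul_cancel_left]
      refine lemA S I (hf _ hk') a r.new (fun t => e4 (rel_symm t))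
        (tr _ _ (by simpa [mul_assoc] using hx)) ?_
        (S.cf_inv (inH_inv b) (S.cf_eq e3 hu1)) (rd_C S I r hf2 hu2)
      simpa [Cf, mul_assoc] using hy'

theorem inv0 (S : SC C H p g) : Inv C H p C H where
  one := S.one
  cvx := S.cvx
  inv := S.inv
  dich := by
    intro f
    by_cases e : f ∈ H
    · left
      intro h hh
      simpa [mul_assoc] using H.mul_mem (H.mul_mem e hh) (H.inv_mem e)
    · right
      intro x hx y hy hx' hy'
      by_contra hc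
      exact e (S.pc f x y hx' hy' hx hy (by omega))

def seq (S : SC C H p g) : ℕ → {q : Set (FreeGroup α) × Subgroup (FreeGroup α) // Inv C H p q.1 q.2}
  | 0 => ⟨(C, H), inv0 S⟩
  | n + 1 => ⟨(W' C H (seq S n).1.1 (seq S n).1.2, N' (seq S n).2), step_inv S (seq S n).2⟩

theorem windmill (S : SC C H p g) {n c : FreeGroup α}
    (hn : n ∈ Subgroup.normalClosure (H : Set (FreeGroup α))) (hc : c ∈ C) (hc' : n * c ∈ C) :
    n ∈ H := by
  have a1 : ∀ r x, x ∈ V (seq S r).1.1 → x ∈ (seq S (r + 1)).1.1 := fun r x h => U_W' (Or.inl h)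
  have a2 : ∀ r, ∀ x ∈ C, x ∈ (seq S r).1.1 := by
    intro r x hx
    induction r with
    | zero => exact hx
    | succ r ih => exact a1 r x (sub_V ih)
  have a3 : ∀ r, n ∈ (seq S r).1.2 → n ∈ H := by
    intro r
    induction r with
    | zero => exact id
    | succ r ih =>
      exact fun h => ih (step_back S (seq S r).2 h (sub_V (a2 r c hc)) (sub_V (a2 r _ hc')))
  have a4 : ∀ r x, d 1 x = r → x ∈ (seq S r).1.1 := by
    intro r
    induction r with
    | zero => intro x h; rw [← d_zero h]; exact S.one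
    | succ r ih =>
      intro x h
      obtain ⟨z, h1, h2⟩ := step_down x r h
      exact a1 r x ⟨z, ih z h1, by rw [d_symm]; omega⟩
  have a5 : ∀ r s, r ≤ s → ∀ x ∈ (seq S r).1.2, x ∈ (seq S s).1.2 := by
    intro r s hrs x hx
    induction hrs with
    | refl => exact hx
    | @step m _ ih => exact le_N' (seq S m).2 ih
  have a6 : ∃ r, n ∈ (seq S r).1.2 := by
    clear a3 hc'
    induction hn using Subgroup.closure_induction with
    | mem x hx =>
      obtain ⟨h, hh, hx⟩ := Group.mem_conjugatesOfSet_iff.1 hx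
      obtain ⟨f, rfl⟩ := isConj_iff.1 hx
      refine ⟨d 1 f + 1, abs_N' (seq S (d 1 f)).2 (S.cf_self f) (sub_V (a4 _ f rfl)) _ ?_⟩
      simpa [mul_assoc] using hh
    | one => exact ⟨0, Subgroup.one_mem _⟩
    | mul x y _ _ h1 h2 =>
      obtain ⟨r, hr⟩ := h1
      obtain ⟨s, hs⟩ := h2
      exact ⟨max r s, Subgroup.mul_mem _ (a5 _ _ (le_max_left _ _) _ hr)
        (a5 _ _ (le_max_right _ _) _ hs)⟩
    | inv x _ h1 =>
      obtain ⟨r, hr⟩ := h1
      exact ⟨r, Subgroup.inv_mem _ hr⟩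
  obtain ⟨r, hr⟩ := a6
  exact a3 r hr

end Pool.Agent.H.MP_b05523_al
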